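import Pool.Agent.D0H51.AG.LimU

/-!
# Agreement with Montgomery's conjecture up to `η`, for a set of `a` of positive proportion

Let `E_T(a)` be the error in Montgomery's pair correlation conjecture for the pairs with
`|γ - γ'| ≤ 2πa / log T`, pairs with `γ = γ'` included.  We prove, with no hypothesis, that for
every `0 < η ≤ 1` each interval `[x, x + R]`, `R ≥ C / √η`, contains a set of `a` of measure at
least `c η ^ (3/2) R` on which `|E_T(a)| ≤ η`, for all large `T`.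
-/

open MeasureTheory

namespace Pool.Agent.Results.MP_f58427_nt.AgreementProportion

/-- the nontrivial zeros of `ζ` -/
def Z : Set ℂ := {s : ℂ | riemannZeta s = 0 ∧ 0 < s.re ∧ s.re < 1}

/-- the multiplicity of `s` as a zero of `ζ` -/
noncomputable def mult (s : ℂ) : ℕ := analyticOrderNatAt riemannZeta s

/-- `N*(T, a)`: the number of ordered pairs of ordinates `(γ, γ')`, counted with multiplicity, with
`0 < γ ≤ T` and `0 < γ - γ' ≤ 2πa / log T` -/
noncomputable def Nstar (T a : ℝ) : ℕ :=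
  ∑ᶠ p ∈ {p : ℂ × ℂ | p.1 ∈ Z ∧ p.2 ∈ Z ∧ 0 < p.1.im ∧ p.1.im ≤ T ∧
    0 < p.1.im - p.2.im ∧ p.1.im - p.2.im ≤ 2 * Real.pi * a / Real.log T}, mult p.1 * mult p.2

/-- the number of ordered pairs of ordinates with `0 < γ ≤ T` and `γ = γ'`, counted with
multiplicity -/
noncomputable def Neq (T : ℝ) : ℕ :=
  ∑ᶠ p ∈ {p : ℂ × ℂ | p.1 ∈ Z ∧ p.2 ∈ Z ∧ 0 < p.1.im ∧ p.1.im ≤ T ∧ p.1.im = p.2.im},
    mult p.1 * mult p.2

/-- the error in the symmetric form of the conjecture -/
noncomputable def E (T a : ℝ) : ℝ :=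
  (2 * (Nstar T a : ℝ) + Neq T) / (T * Real.log T / (2 * Real.pi)) -
    (1 + 2 * ∫ u in (0 : ℝ)..a, (1 - (Real.sin (Real.pi * u) / (Real.pi * u)) ^ 2))

/-- **Agreement up to `η` on a set of positive proportion, in every interval of length at least
`C / √η`**, with no hypothesis. -/
theorem result :
    ∃ c C : ℝ, 0 < c ∧ 0 < C ∧ ∀ η R x : ℝ, 0 < η → η ≤ 1 → C / Real.sqrt η ≤ R → 0 ≤ x →
      ∃ T₀ : ℝ, ∀ T : ℝ, T₀ ≤ T →
        c * (η * Real.sqrt η) * R ≤ volume.real {a : ℝ | x ≤ a ∧ a ≤ x + R ∧ |E T a| ≤ η} := by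
  obtain ⟨c, C, hc, hC, h⟩ := D0H51.AG.small_U
  refine ⟨c, C, hc, hC, fun η R x hη hη1 hR hx => ?_⟩
  obtain ⟨T0, hT0⟩ := Filter.eventually_atTop.1 (h η hη hη1 R hR x hx)
  obtain ⟨T1, hT1, hN⟩ := N804.nstar_eq' (x + R)
  refine ⟨max T0 T1, fun T hT => (hT0 T ((le_max_left _ _).trans hT)).trans ?_⟩
  have hTT1 : T1 ≤ T := (le_max_right _ _).trans hT
  have hTg : 1 < T := by linarith
  have hX := N804.XX_pos hTg
  refine measureReal_mono ?_ ?_
  · rintro a ⟨h1, h2⟩
    refine ⟨h2.1.le, h2.2, ?_⟩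
    have e1 : E T a = D0H51.AG.SS T a := by
      have e2 : (Nstar T a : ℝ) = N804.CF T a * N804.XX T := hN T hTT1 a h2.2
      have e3 : (Neq T : ℝ) = N804.MF T * N804.XX T := by
        have := N804.pe_eq T
        unfold N804.MF
        rw [div_mul_cancel₀ _ hX.ne']
        exact this
      have e4 : T * Real.log T / (2 * Real.pi) = N804.XX T := rfl
      have e5 : ∫ u in (0 : ℝ)..a, (1 - (Real.sin (Real.pi * u) / (Real.pi * u)) ^ 2) =
          N804.PP a := by
        rw [N804.val_win, N804.PP_zero, sub_zero]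
      unfold E D0H51.AG.SS
      rw [e2, e3, e4, e5]
      field_simp
      ring
    rw [e1]
    exact h1
  · have hsub : {a : ℝ | x ≤ a ∧ a ≤ x + R ∧ |E T a| ≤ η} ⊆ Set.Icc x (x + R) :=
      fun a ha => ⟨ha.1, ha.2.1⟩
    refine measure_ne_top_of_subset hsub ?_
    rw [Real.volume_Icc]
    exact ENNReal.ofReal_ne_top

end Pool.Agent.Results.MP_f58427_nt.AgreementProportion
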