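import Pool.Agent.D0H51.BI.Lim

/-!
# The error in the pair correlation conjecture: smooth averages and balance

Let `E_T(a)` be the error in Montgomery's pair correlation conjecture for the pairs with
`|γ - γ'| ≤ 2πa / log T`, pairs with `γ = γ'` included.  With no hypothesis we prove, for `R ≥ 1`,
`x ≥ R` and all `T ≥ T₀(x, R)`:

* the average of `E_T` over `[x - R, x + R]` with any fixed smooth even weight is `O(R⁻²)`;
* `E_T⁺(x) ^ 2 ≤ C (∫_{|a - x| ≤ R} E_T⁻(a) da + 1 / R)` and the same with `E_T⁺` and `E_T⁻`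
  exchanged: an excess of pairs at the distance `x` forces a deficiency nearby, and conversely.
-/

open MeasureTheory

namespace Pool.Agent.Results.MP_f58427_nt.BalanceOfTheError

/-- the nontrivial zeros of `ζ` -/
def Z : Set ℂ := {s : ℂ | riemannZeta s = 0 ∧ 0 < s.re ∧ s.re < 1}

/-- the multiplicity of `s` as a zero of `ζ` -/
noncomputable def mult (s : ℂ) : ℕ := analyticOrderNatAt riemannZeta s

/-- `N*(T, a)`: the number of ordered pairs of ordinates `(γ, γ')`, counted with multiplicity, with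
`0 < γ ≤ T` and `0 < γ - γ' ≤ 2πa / log T` -/
noncomputable def Nstar (T a : ℝ) : ℕ :=
  ∑ᶠ p ∈ {p : ℂ × ℂ | p.1 ∈ Z ∧ p.2 ∈ Z ∧ 0 < p.1.im ∧ p.1.im ≤ T ∧
    0 < p.1.im - p.2.im ∧ p.1.im - p.2.im ≤ 2 * Real.pi * a / Real.log T}, mult p.1 * mult p.2

/-- the number of ordered pairs of ordinates with `0 < γ ≤ T` and `γ = γ'`, counted with
multiplicity -/
noncomputable def Neq (T : ℝ) : ℕ :=
  ∑ᶠ p ∈ {p : ℂ × ℂ | p.1 ∈ Z ∧ p.2 ∈ Z ∧ 0 < p.1.im ∧ p.1.im ≤ T ∧ p.1.im = p.2.im},
    mult p.1 * mult p.2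

/-- the error in the symmetric form of the conjecture -/
noncomputable def E (T a : ℝ) : ℝ :=
  (2 * (Nstar T a : ℝ) + Neq T) / (T * Real.log T / (2 * Real.pi)) -
    (1 + 2 * ∫ u in (0 : ℝ)..a, (1 - (Real.sin (Real.pi * u) / (Real.pi * u)) ^ 2))

theorem E_eq (b : ℝ) : ∃ T₁ : ℝ, ∀ T : ℝ, T₁ ≤ T → ∀ a : ℝ, a ≤ b → E T a = D0H51.AG.SS T a := by
  obtain ⟨T1, hT1, hN⟩ := N804.nstar_eq' b
  refine ⟨T1, fun T hT a ha => ?_⟩
  have hTg : 1 < T := by linarith
  have hX := N804.XX_pos hTg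
  have e2 : (Nstar T a : ℝ) = N804.CF T a * N804.XX T := hN T hT a ha
  have e3 : (Neq T : ℝ) = N804.MF T * N804.XX T := by
    have := N804.pe_eq T
    unfold N804.MF
    rw [div_mul_cancel₀ _ hX.ne']
    exact this
  have e4 : T * Real.log T / (2 * Real.pi) = N804.XX T := rfl
  have e5 : ∫ u in (0 : ℝ)..a, (1 - (Real.sin (Real.pi * u) / (Real.pi * u)) ^ 2) =
      N804.PP a := by
    rw [N804.val_win, N804.PP_zero, sub_zero]
  unfold E D0H51.AG.SS
  rw [e2, e3, e4, e5]
  field_simp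
  ring

/-- **Smooth averages of the error over windows of length `R` are `O(R⁻²)`, and the positive and the
negative part of the error balance each other locally**, with no hypothesis. -/
theorem result :
    (∀ k : ℝ → ℝ, ContDiff ℝ (⊤ : ℕ∞) k → (∀ u, k (-u) = k u) → (∀ u, 1 ≤ |u| → k u = 0) →
      ∃ C : ℝ, ∀ R x : ℝ, 1 ≤ R → R ≤ x → ∃ T₀ : ℝ, ∀ T : ℝ, T₀ ≤ T →
        |(1 / R) * ∫ a in (x - R)..(x + R), k ((a - x) / R) * E T a| ≤ C / R ^ 2) ∧
    ∃ C : ℝ, ∀ R x : ℝ, 1 ≤ R → R ≤ x → ∃ T₀ : ℝ, ∀ T : ℝ, T₀ ≤ T →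
      max (E T x) 0 ^ 2 ≤ C * ((∫ a in (x - R)..(x + R), max (-E T a) 0) + 1 / R) ∧
      max (-E T x) 0 ^ 2 ≤ C * ((∫ a in (x - R)..(x + R), max (E T a) 0) + 1 / R) := by
  constructor
  · intro k hk hev hz
    have hcs : HasCompactSupport k := by
      refine HasCompactSupport.intro (isCompact_Icc (a := (-1 : ℝ)) (b := 1)) fun u hu => hz u ?_
      by_contra hcon
      push Not at hcon
      exact hu (abs_le.1 hcon.le)
    have hki : Integrable k := hk.continuous.integrable_of_hasCompactSupport hcs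
    set L : ℝ := 1 + ∫ u, |k u| with hL
    have hL0 : 0 ≤ ∫ u, |k u| := integral_nonneg fun _ => abs_nonneg _
    have hL1 : 0 < L := by rw [hL]; linarith
    have Hk : D0H51.BI.KK (fun u => L⁻¹ * k u) := by
      refine ⟨⟨contDiff_const.mul hk, hcs.mul_left⟩, fun u => by rw [hev], fun u hu => by
        rw [hz u hu, mul_zero], ?_⟩
      have : ∀ u, |L⁻¹ * k u| = L⁻¹ * |k u| := fun u => by
        rw [abs_mul, abs_of_pos (inv_pos.2 hL1)]
      simp_rw [this]
      rw [integral_const_mul, inv_mul_le_iff₀ hL1, mul_one, hL]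
      linarith
    obtain ⟨C, hC, h⟩ := D0H51.BI.smooth_T Hk
    refine ⟨L * C, fun R x hR hx => ?_⟩
    obtain ⟨T0, hT0⟩ := Filter.eventually_atTop.1 (h R x hR hx)
    obtain ⟨T1, hT1⟩ := E_eq (x + R)
    refine ⟨max T0 T1, fun T hT => ?_⟩
    have h1 := hT0 T ((le_max_left _ _).trans hT)
    have h2 := hT1 T ((le_max_right _ _).trans hT)
    have e : (1 / R) * ∫ a in (x - R)..(x + R), k ((a - x) / R) * E T a =
        L * ∫ a in (x - R)..(x + R), D0H51.BI.kG (fun u => L⁻¹ * k u) R (a - x) *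
          D0H51.AG.SS T a := by
      rw [← intervalIntegral.integral_const_mul, ← intervalIntegral.integral_const_mul]
      refine intervalIntegral.integral_congr fun a ha => ?_
      rw [Set.uIcc_of_le (by linarith)] at ha
      show 1 / R * (k ((a - x) / R) * E T a) = L * (D0H51.BI.kG (fun u => L⁻¹ * k u) R (a - x) *
          D0H51.AG.SS T a)
      rw [h2 a ha.2]
      unfold D0H51.BI.kG
      field_simp
    rw [e, abs_mul, abs_of_pos hL1, mul_div_assoc]
    gcongr
  · obtain ⟨C, hC, h⟩ := D0H51.BI.balance_T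
    refine ⟨C, fun R x hR hx => ?_⟩
    obtain ⟨T0, hT0⟩ := Filter.eventually_atTop.1 (h 1 (Or.inl rfl) R x hR hx)
    obtain ⟨T2, hT2⟩ := Filter.eventually_atTop.1 (h (-1) (Or.inr rfl) R x hR hx)
    obtain ⟨T1, hT1⟩ := E_eq (x + R)
    refine ⟨max (max T0 T2) T1, fun T hT => ?_⟩
    have h1 := hT0 T ((le_max_left _ _).trans ((le_max_left _ _).trans hT))
    have h3 := hT2 T ((le_max_right _ _).trans ((le_max_left _ _).trans hT))
    have h2 := hT1 T ((le_max_right _ _).trans hT)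
    have hR0 : 0 < R := by linarith
    have ex : E T x = D0H51.AG.SS T x := h2 x (by linarith)
    have e1 : ∫ a in (x - R)..(x + R), max (-E T a) 0 =
        ∫ a in (x - R)..(x + R), max (-(1 * D0H51.AG.SS T a)) 0 := by
      refine intervalIntegral.integral_congr fun a ha => ?_
      rw [Set.uIcc_of_le (by linarith)] at ha
      show max (-E T a) 0 = max (-(1 * D0H51.AG.SS T a)) 0
      rw [h2 a ha.2, one_mul]
    have e2 : ∫ a in (x - R)..(x + R), max (E T a) 0 =
        ∫ a in (x - R)..(x + R), max (-(-1 * D0H51.AG.SS T a)) 0 := by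
      refine intervalIntegral.integral_congr fun a ha => ?_
      rw [Set.uIcc_of_le (by linarith)] at ha
      show max (E T a) 0 = max (-(-1 * D0H51.AG.SS T a)) 0
      rw [h2 a ha.2, neg_mul, one_mul, neg_neg]
    rw [e1, e2, ex]
    rw [one_mul] at h1
    rw [neg_mul, one_mul] at h3
    exact ⟨h1, h3⟩

end Pool.Agent.Results.MP_f58427_nt.BalanceOfTheError
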