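import Pool.Agent.D0H26.WM.Pair

/-!
# Montgomery's form factor with the weight `|D(t)|²`, `D` an arbitrary Dirichlet polynomial

Unconditionally, in every interval `(A, B]` of `[T + 1, 2 T - 1]` and for EVERY Dirichlet
polynomial `D` of length `M` with `M e^u T^ε ≤ B - A`, the sum over the pairs of zeros of zeta of
`e^{u(ρ - ρ')}` times a Gaussian times the weight attached to `|D|²` is asymptotically
`(B - A) / 2π` times `u ∑ |c_m|² + R / √π`, with an explicit `R ≥ 0` which involves only the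
coefficients of `D` at the multiples of the primes near `e^u`.  For `D = 1` this is Montgomery's
asymptotic formula for the form factor.
-/

open Complex MeasureTheory
open scoped ComplexConjugate

namespace Pool.Agent.Results.MP_f58427_nt.DirichletPolynomialWeights

/-- the nontrivial zeros `ρ` of zeta with `A < Im ρ ≤ B` -/
def zeros (A B : ℝ) : Set ℂ :=
  {s : ℂ | riemannZeta s = 0 ∧ 0 < s.re ∧ s.re < 1 ∧ A < s.im ∧ s.im ≤ B}

/-- multiplicity of the zero `s` -/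
noncomputable def mult (s : ℂ) : ℕ := analyticOrderNatAt riemannZeta s

/-- the Dirichlet polynomial `D(t) = ∑_{m ≤ M} c_m m^{-it}` -/
noncomputable def D (M : ℕ) (c : ℕ → ℂ) (t : ℝ) : ℂ :=
  ∑ m ∈ Finset.Icc 1 M, c m * (m : ℂ) ^ (-(t : ℂ) * I)

/-- `S = ∑_{m ≤ M} |c_m|²`, the mean value of `|D|²` -/
noncomputable def S (M : ℕ) (c : ℕ → ℂ) : ℝ := ∑ m ∈ Finset.Icc 1 M, ‖c m‖ ^ 2

/-- `R = ∑_{k ≤ M} |∑_{p ≤ M / k} (log p / √p) e^{-(u - log p)² / 2} c_{pk}|²`, `p` prime -/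
noncomputable def R (u : ℝ) (M : ℕ) (c : ℕ → ℂ) : ℝ :=
  ∑ k ∈ Finset.Icc 1 M, ‖∑ p ∈ (Finset.Icc 1 (M / k)).filter Nat.Prime,
    ((Real.log p / Real.sqrt p * Real.exp (-(u - Real.log p) ^ 2 / 2) : ℝ) : ℂ) * c (p * k)‖ ^ 2

/-- the zeros near `t`, at scale `u`: `∑ m_ρ e^{u(ρ - 1/2)} e^{(ρ - 1/2 - it)² / 2}` over the zeros
with ordinate in `(A, B]` -/
noncomputable def Z (A B u t : ℝ) : ℂ :=
  ∑ᶠ ρ ∈ zeros A B, (mult ρ : ℂ) * (cexp (u * (ρ - 1 / 2)) * cexp ((ρ - 1 / 2 - I * t) ^ 2 / 2))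

/-- the weight attached to `|D|²`: `W(s) = ∑ c_m \bar c_n (n/m)^{s - 1/2} e^{-(log (n/m))² / 4}`, so
that `W(1/2 + iγ) = π^{-1/2} ∫ |D(t)|² e^{-(t - γ)²} dt` -/
noncomputable def W (M : ℕ) (c : ℕ → ℂ) (s : ℂ) : ℂ :=
  ∑ m ∈ Finset.Icc 1 M, ∑ n ∈ Finset.Icc 1 M, c m * conj (c n) *
    (((n : ℂ) / m) ^ (s - 1 / 2) * cexp (-((Real.log n - Real.log m : ℝ) : ℂ) ^ 2 / 4))

/-- the weighted sum over the pairs of zeros with ordinates in `(A, B]`:
`∑_{ρ, ρ'} m_ρ m_ρ' e^{u(ρ - ρ') + (ρ - ρ')² / 4} W((ρ + ρ') / 2)` -/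
noncomputable def pairs (A B u : ℝ) (M : ℕ) (c : ℕ → ℂ) : ℂ :=
  ∑ᶠ ρ ∈ zeros A B, ∑ᶠ ρ' ∈ zeros A B, (mult ρ : ℂ) * (mult ρ' : ℂ) *
    (cexp (u * (ρ - ρ') + (ρ - ρ') ^ 2 / 4) * W M c ((ρ + ρ') / 2))

lemma zeros_eq (A B : ℝ) : zeros A B = H370.zset riemannZeta A B := by
  ext s
  simp only [zeros, H370.zset, Set.mem_setOf_eq]
  tauto

lemma Z_eq (A B u t : ℝ) : Z A B u t = H370.AA riemannZeta A B u t := by
  unfold Z H370.AA
  rw [zeros_eq]
  rfl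

/-- **The form factor with the weight `|D|²`, for every Dirichlet polynomial `D`.**  For every
`ε > 0` and all large `T`, for every interval `(A, B]` with `T + 1 ≤ A`, `B ≤ 2T - 1`, every
`u ≥ ε log T`, every `M ≥ 1` and all complex coefficients `c`:

(1) if `M e^u T^ε ≤ B - A`, then `pairs = ((B - A) / 2π) (u S + R / √π) + O(ε log T (B - A) S)`;
(2) if moreover `c_m = 0` for every `m` which has a prime factor `p` with
`|log p - u| ≤ ε log T`, then `R ≤ ε S`, so that the main term is `(u / 2π) (B - A) S`;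
(3) the same local formula on every subinterval `[T₁, T₂]` of `[A + log T, B - log T]` with
`M e^u T^ε ≤ T₂ - T₁`: the integral of `|Z|² |D|²` is
`((T₂ - T₁) / 2π) (√π u S + R) + O(ε log T (T₂ - T₁) S)`, while the integral of `|D|²` is
`(1 + O(ε)) (T₂ - T₁) S`.  All implied constants are `1`.  No hypothesis is assumed. -/
theorem result :
    ∀ ε : ℝ, 0 < ε → ∃ T₀ : ℝ, ∀ T : ℝ, T₀ ≤ T → ∀ A B : ℝ, T + 1 ≤ A → B ≤ 2 * T - 1 →
      ∀ u : ℝ, ε * Real.log T ≤ u → ∀ (M : ℕ) (c : ℕ → ℂ), 1 ≤ M →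
      ((M : ℝ) * Real.exp u * T ^ ε ≤ B - A →
        ‖pairs A B u M c - (((B - A) / (2 * Real.pi) *
          (u * S M c + R u M c / Real.sqrt Real.pi) : ℝ) : ℂ)‖ ≤
            ε * Real.log T * ((B - A) * S M c) ∧
        ((∀ m ∈ Finset.Icc 1 M, ∀ p : ℕ, p.Prime → |Real.log p - u| ≤ ε * Real.log T → p ∣ m →
          c m = 0) → R u M c ≤ ε * S M c)) ∧
      (∀ T₁ T₂ : ℝ, A + Real.log T ≤ T₁ → T₂ ≤ B - Real.log T →
        (M : ℝ) * Real.exp u * T ^ ε ≤ T₂ - T₁ →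
        |(∫ t in T₁..T₂, ‖Z A B u t‖ ^ 2 * ‖D M c t‖ ^ 2) -
          (T₂ - T₁) / (2 * Real.pi) * (Real.sqrt Real.pi * u * S M c + R u M c)| ≤
            ε * Real.log T * ((T₂ - T₁) * S M c) ∧
        |(∫ t in T₁..T₂, ‖D M c t‖ ^ 2) - (T₂ - T₁) * S M c| ≤ ε * ((T₂ - T₁) * S M c)) := by
  classical
  intro ε hε
  obtain ⟨T1, hT1, h1⟩ := Pool.Agent.D0H26.WM.main_pair ε hε
  obtain ⟨T2, hT2, h2⟩ := Pool.Agent.D0H26.WM.main_g ε hε
  refine ⟨max T1 T2, fun T hT A B hA hB u hu M c hM => ?_⟩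
  have hTT1 : T1 ≤ T := (le_max_left _ _).trans hT
  have hTT2 : T2 ≤ T := (le_max_right _ _).trans hT
  have hR : R u M c = Pool.Agent.D0H26.WM.RA u M c := by
    unfold R Pool.Agent.D0H26.WM.RA
    refine Finset.sum_congr rfl fun k hk => ?_
    rw [Finset.mem_Icc] at hk
    congr 2
    have hsub : (Finset.Icc 1 (M / k)).filter Nat.Prime ⊆ (Finset.Icc 1 M).filter Nat.Prime := by
      intro p hp
      rw [Finset.mem_filter, Finset.mem_Icc] at hp ⊢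
      exact ⟨⟨hp.1.1, hp.1.2.trans (Nat.div_le_self _ _)⟩, hp.2⟩
    symm
    have e1 : ∀ p ∈ (Finset.Icc 1 (M / k)).filter Nat.Prime,
        ((Real.log p / Real.sqrt p * Real.exp (-(u - Real.log p) ^ 2 / 2) : ℝ) : ℂ) * c (p * k) =
        Pool.Agent.D0H26.WM.bc u p * Pool.Agent.D0H26.WM.cut M c (p * k) := by
      intro p hp
      rw [Finset.mem_filter, Finset.mem_Icc] at hp
      have h3 : p * k ∈ Finset.Icc 1 M := by
        rw [Finset.mem_Icc]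
        refine ⟨Nat.mul_pos hp.1.1 hk.1, ?_⟩
        exact (Nat.le_div_iff_mul_le hk.1).1 hp.1.2
      unfold Pool.Agent.D0H26.WM.bc Pool.Agent.D0H26.WM.br Pool.Agent.D0H26.WM.cut
      rw [if_pos h3, div_eq_mul_inv]
    rw [Finset.sum_congr rfl e1]
    symm
    apply Finset.sum_subset hsub
    intro p hp hp'
    rw [Finset.mem_filter, Finset.mem_Icc] at hp
    have h3 : p * k ∉ Finset.Icc 1 M := by
      rw [Finset.mem_Icc]
      intro h
      apply hp'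
      rw [Finset.mem_filter, Finset.mem_Icc]
      exact ⟨⟨hp.1.1, (Nat.le_div_iff_mul_le hk.1).2 h.2⟩, hp.2⟩
    unfold Pool.Agent.D0H26.WM.cut
    rw [if_neg h3, mul_zero]
  have hS : S M c = Pool.Agent.D0H26.WM.SS M c := rfl
  rw [hR, hS]
  refine ⟨fun hX => ?_, fun X1 X2 hX1 hX2 hX => ?_⟩
  · obtain ⟨h3, h4⟩ := h1 T hTT1 A B hA hB u hu M c hM hX
    have hA1 : 1 ≤ A := by linarith
    have hP : pairs A B u M c = Pool.Agent.D0H26.WM.PS A B u M c := by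
      unfold pairs Pool.Agent.D0H26.WM.PS
      rw [zeros_eq, H370.finsum_Zf H370.good_zeta hA1]
      refine Finset.sum_congr rfl fun s _ => ?_
      rw [H370.finsum_Zf H370.good_zeta hA1]
      rfl
    rw [hP]
    exact ⟨h3, h4⟩
  · obtain ⟨h3, h4, -⟩ := h2 T hTT2 A B hA hB u hu M c hM X1 X2 hX1 hX2 hX
    simp_rw [Z_eq]
    exact ⟨h3, h4⟩

end Pool.Agent.Results.MP_f58427_nt.DirichletPolynomialWeights
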