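import Pool.Agent.D0H44.GM.Tv

/-!
# An unconditional lower bound for the integral of Goldston and Montgomery, for every `δ` and on short windows

Under the Riemann hypothesis `∫_1^X (ψ((1+δ)x) - ψ(x) - δx)² x⁻² dx ≪ δ (log X) log (2/δ)`, and the pair correlation
conjecture gives an asymptotic formula for `X⁻¹ ≤ δ ≤ X^(-ε)`.  Unconditionally, the part of this integral
over the last window `δ^(1+η) X ≤ x ≤ X` is already of this order of magnitude from below, for EVERY `δ` between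
`X⁻¹` and `X^(-η)`.
-/

set_option autoImplicit false

namespace Pool.Agent.Results.MP_f58427_nt.IntegralLowerEveryDelta

open Pool.Agent.D0H44.GM

lemma grid (h : ℝ) (hh : 0 < h) (M : ℕ) : ∃ c T₀ : ℝ, 0 < c ∧ ∀ i : ℕ, i < M → 2 + 2 * h ≤ i * h →
    ∀ δ : ℝ, 0 < δ → T₀ ≤ 1 / δ →
      c * δ * Real.log (1 / δ) ^ 2 ≤ J δ ((1 / δ) ^ (i * h - 1 - h)) ((1 / δ) ^ (i * h)) := by
  induction M with
  | zero => exact ⟨1, 1, one_pos, fun i hi => absurd hi (Nat.not_lt_zero i)⟩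
  | succ M ih =>
    obtain ⟨c, T, hc, hcT⟩ := ih
    by_cases hM : 2 + 2 * h ≤ M * h
    · obtain ⟨c', T', hc', h'⟩ := window_mult (M * h - 1 - h) (M * h) (by linarith) (by linarith)
      refine ⟨min c c', max T T', lt_min hc hc', fun i hi hih δ hδ hδT => ?_⟩
      have h0 : 0 ≤ δ * Real.log (1 / δ) ^ 2 := by positivity
      rcases Nat.lt_succ_iff_lt_or_eq.1 hi with h1 | h1
      · refine le_trans ?_ (hcT i h1 hih δ hδ ((le_max_left _ _).trans hδT))
        rw [mul_assoc, mul_assoc]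
        exact mul_le_mul_of_nonneg_right (min_le_left _ _) h0
      · subst h1
        refine le_trans ?_ (h' δ hδ ((le_max_right _ _).trans hδT))
        rw [mul_assoc, mul_assoc]
        exact mul_le_mul_of_nonneg_right (min_le_right _ _) h0
    · refine ⟨c, T, hc, fun i hi hih δ hδ hδT => ?_⟩
      rcases Nat.lt_succ_iff_lt_or_eq.1 hi with h1 | h1
      · exact hcT i h1 hih δ hδ hδT
      · subst h1
        exact absurd hih hM

/-- For every `0 < η ≤ 1` there are `c > 0` and `X₀` such that for all `X ≥ X₀` and ALL `δ` with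
`X⁻¹ ≤ δ ≤ X^(-η)` the integral of `(ψ((1+δ)x) - ψ(x) - δx)² x⁻²` over `δ^(1+η) X ≤ x ≤ X` is at least
`c δ (log X)²`. -/
theorem result (η : ℝ) (hη : 0 < η) (hη1 : η ≤ 1) :
    ∃ c X₀ : ℝ, 0 < c ∧ ∀ X : ℝ, X₀ ≤ X → ∀ δ : ℝ, X⁻¹ ≤ δ → δ ≤ X ^ (-η) →
      c * δ * Real.log X ^ 2 ≤ ∫ x in (δ ^ (1 + η) * X)..X,
        (Chebyshev.psi ((1 + δ) * x) - Chebyshev.psi x - δ * x) ^ 2 / x ^ 2 := by
  obtain ⟨h, hh⟩ : ∃ h, h = η / 8 := ⟨_, rfl⟩
  have hh0 : 0 < h := by rw [hh]; positivity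
  obtain ⟨c₁, T₁, hc₁, h1⟩ := triv_range (1 - η / 2) (by linarith) (by linarith)
  obtain ⟨M, hM⟩ := exists_nat_gt (1 / (η * h))
  obtain ⟨c₂, T₂, hc₂, h2⟩ := grid h hh0 M
  obtain ⟨X₀, hX₀⟩ : ∃ X₀ : ℝ, X₀ = (max (max T₁ T₂) 2) ^ (1 / η) := ⟨_, rfl⟩
  refine ⟨min c₁ c₂ * η ^ 2, max X₀ 2, by have := lt_min hc₁ hc₂; positivity, fun X hX δ hδX hδη => ?_⟩
  have hX2 : 2 ≤ X := (le_max_right _ _).trans hX
  have hXX : X₀ ≤ X := (le_max_left _ _).trans hX
  have hX0 : 0 < X := by linarith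
  have hδ0 : 0 < δ := lt_of_lt_of_le (by positivity) hδX
  obtain ⟨T, hT⟩ : ∃ T, T = 1 / δ := ⟨_, rfl⟩
  have hTX : T ≤ X := by
    rw [hT, one_div]
    exact inv_le_of_inv_le₀ hX0 hδX
  have hTη : X ^ η ≤ T := by
    rw [hT, one_div, le_inv_comm₀ (by positivity) hδ0, ← Real.rpow_neg hX0.le]
    exact hδη
  have hm0 : 0 < max (max T₁ T₂) 2 := lt_of_lt_of_le two_pos (le_max_right _ _)
  have hTm : max (max T₁ T₂) 2 ≤ T := by
    refine le_trans ?_ hTη
    calc max (max T₁ T₂) 2 = X₀ ^ η := by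
          rw [hX₀, ← Real.rpow_mul hm0.le, one_div, inv_mul_cancel₀ hη.ne', Real.rpow_one]
      _ ≤ X ^ η := Real.rpow_le_rpow (by rw [hX₀]; positivity) hXX hη.le
  simp only [max_le_iff] at hTm
  obtain ⟨⟨hT1, hT2⟩, hT2'⟩ := hTm
  have hT0 : 0 < T := by linarith
  obtain ⟨L, hL⟩ : ∃ L, L = Real.log T := ⟨_, rfl⟩
  have hL0 : 0 < L := by rw [hL]; exact Real.log_pos (by linarith)
  have hLX : η * Real.log X ≤ L := by
    rw [hL, ← Real.log_rpow hX0]
    exact Real.log_le_log (by positivity) hTη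
  have hlX0 : 0 < Real.log X := Real.log_pos (by linarith)
  obtain ⟨β, hβ⟩ : ∃ β, β = Real.log X / L := ⟨_, rfl⟩
  have hβL : β * L = Real.log X := by
    rw [hβ]
    field_simp
  have hβ1 : 1 ≤ β := by
    rw [hβ, le_div_iff₀ hL0, one_mul, hL]
    exact Real.log_le_log hT0 hTX
  have hβη : β ≤ 1 / η := by
    rw [hβ, div_le_div_iff₀ hL0 hη]
    linarith
  have hXT : X = T ^ β := by
    rw [Real.rpow_def_of_pos hT0, ← hL, mul_comm, hβL, Real.exp_log hX0]
  have hleft : δ ^ (1 + η) * X = T ^ (β - 1 - η) := by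
    have : δ = T⁻¹ := by rw [hT]; field_simp
    rw [this, Real.inv_rpow hT0.le, ← Real.rpow_neg hT0.le, hXT, ← Real.rpow_add hT0]
    congr 1
    ring
  have hJ : J δ (T ^ (β - 1 - η)) (T ^ β) = ∫ x in (δ ^ (1 + η) * X)..X,
        (Chebyshev.psi ((1 + δ) * x) - Chebyshev.psi x - δ * x) ^ 2 / x ^ 2 := by
    rw [hleft, ← hXT]
    rfl
  rw [← hJ]
  have hlow : ∀ c : ℝ, min c₁ c₂ ≤ c → min c₁ c₂ * η ^ 2 * δ * Real.log X ^ 2 ≤ c * δ * L ^ 2 := by
    intro c hc
    have hm : 0 < min c₁ c₂ := lt_min hc₁ hc₂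
    have h3 : (η * Real.log X) ^ 2 ≤ L ^ 2 := pow_le_pow_left₀ (by positivity) hLX 2
    calc min c₁ c₂ * η ^ 2 * δ * Real.log X ^ 2 = min c₁ c₂ * δ * (η * Real.log X) ^ 2 := by ring
      _ ≤ c * δ * L ^ 2 := by
        apply mul_le_mul (mul_le_mul_of_nonneg_right hc hδ0.le) h3 (by positivity) (by
          have : 0 < c := lt_of_lt_of_le hm hc
          positivity)
  have hT1' : 1 ≤ T := by linarith
  rcases le_or_gt β (2 + 4 * h) with hb | hb
  · -- short intervals contained in the range of isolated primes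
    obtain ⟨h3, h4⟩ := h1 δ hδ0 (by rw [← hT]; exact hT1)
    rw [← hT, ← hL] at h3
    rw [← hT] at h4
    refine (hlow c₁ (min_le_left _ _)).trans (h3.trans ?_)
    apply J_mono δ _ _ _ _ hδ0.le (by positivity)
    · apply Real.rpow_le_rpow_of_exponent_le hT1'
      rw [hh] at hb
      linarith
    · exact h4
    · rw [← hXT]
      linarith
  · obtain ⟨i, hi⟩ : ∃ i : ℕ, i = ⌊β / h⌋₊ := ⟨_, rfl⟩
    have hi1 : (i : ℝ) ≤ β / h := by
      rw [hi]
      exact Nat.floor_le (by positivity)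
    have hi2 : β / h < i + 1 := by
      rw [hi]
      exact Nat.lt_floor_add_one _
    rw [le_div_iff₀ hh0] at hi1
    rw [div_lt_iff₀ hh0] at hi2
    have hiM : i < M := by
      have : (i : ℝ) < M := by
        refine lt_of_le_of_lt ?_ hM
        rw [le_div_iff₀ (by positivity)]
        rw [le_div_iff₀ hη] at hβη
        calc (i : ℝ) * (η * h) = (i * h) * η := by ring
          _ ≤ β * η := mul_le_mul_of_nonneg_right hi1 hη.le
          _ ≤ 1 := hβη
      exact_mod_cast this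
    have h3 := h2 i hiM (by linarith) δ hδ0 (by rw [← hT]; exact hT2)
    rw [← hT, ← hL] at h3
    refine (hlow c₂ (min_le_right _ _)).trans (h3.trans ?_)
    apply J_mono δ _ _ _ _ hδ0.le (by positivity)
    · apply Real.rpow_le_rpow_of_exponent_le hT1'
      rw [hh] at hi2 ⊢
      linarith
    · apply Real.rpow_le_rpow_of_exponent_le hT1'
      linarith
    · exact Real.rpow_le_rpow_of_exponent_le hT1' hi1

end Pool.Agent.Results.MP_f58427_nt.IntegralLowerEveryDelta
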